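import Mathlib
import Pool.Agent.V5helper2.NR.Stm

/-! # Project NR, job PMS: the diagonal of a product measure -/

set_option autoImplicit false
open Finset Filter Topology MeasureTheory AddCircle
open scoped ComplexConjugate

namespace Pool.Agent.V5helper53.NR

open Pool.Agent.V5helper2.NR Pool.Agent.Helper498.NCR Pool.Agent.V5helper2.CF

theorem f_pos (n : ℕ) (x : Ci) : (fourier (n : ℤ) x : ℂ) = (fourier 1 x : ℂ) ^ n := by
  induction n with
  | zero => simp
  | succ n ih => rw [Nat.cast_succ, fourier_add, ih, pow_succ]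

theorem f_neg (n : ℕ) (x : Ci) : (fourier (-(n : ℤ)) x : ℂ) = (fourier (-1) x : ℂ) ^ n := by
  induction n with
  | zero => simp
  | succ n ih => rw [Nat.cast_succ, neg_add, fourier_add, ih, pow_succ]

theorem f_sub (m n : ℕ) (x : Ci) :
    (fourier ((m : ℤ) - n) x : ℂ) = (fourier 1 x : ℂ) ^ m * (fourier (-1) x : ℂ) ^ n := by
  rw [sub_eq_add_neg, fourier_add, f_pos, f_neg]

theorem f_norm (n : ℤ) (x : Ci) : ‖(fourier n x : ℂ)‖ = 1 := by
  rw [fourier_apply]; exact Circle.norm_coe _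

theorem f_inj (t s : Ci) (h : (fourier 1 t : ℂ) * fourier (-1) s = 1) : t = s := by
  have h1 : (fourier (-1) s : ℂ) = conj (fourier 1 s : ℂ) := fourier_neg
  have h2 : (fourier 1 s : ℂ) * conj (fourier 1 s : ℂ) = 1 := by
    rw [Complex.mul_conj, Complex.normSq_eq_norm_sq, f_norm]; simp
  have h3 : (fourier 1 t : ℂ) = fourier 1 s := by
    calc (fourier 1 t : ℂ) = fourier 1 t * (fourier 1 s * conj (fourier 1 s : ℂ)) := by rw [h2, mul_one]
      _ = (fourier 1 t * fourier (-1) s) * fourier 1 s := by rw [h1]; ring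
      _ = fourier 1 s := by rw [h, one_mul]
  rw [fourier_one, fourier_one] at h3
  exact AddCircle.injective_toCircle one_ne_zero (Circle.ext h3)

/-- the kernel -/
noncomputable def G (H : ℕ) (z : Ci × Ci) : ℂ :=
  ((H : ℂ) ^ 2)⁻¹ * ∑ h ∈ range H, ∑ h' ∈ range H,
    (fourier ((h : ℤ) - h') z.1 : ℂ) * fourier ((h' : ℤ) - h) z.2

theorem G_cont (H : ℕ) : Continuous (G H) := by
  unfold G
  fun_prop

theorem G_norm (H : ℕ) (z : Ci × Ci) : ‖G H z‖ ≤ 1 := by
  unfold G
  rw [norm_mul, norm_inv, norm_pow, Complex.norm_natCast]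
  have h1 : ‖∑ h ∈ range H, ∑ h' ∈ range H,
      (fourier ((h : ℤ) - h') z.1 : ℂ) * fourier ((h' : ℤ) - h) z.2‖ ≤ (H : ℝ) ^ 2 := by
    refine (norm_sum_le_of_le (f := fun h : ℕ => ∑ h' ∈ range H,
      (fourier ((h : ℤ) - h') z.1 : ℂ) * fourier ((h' : ℤ) - h) z.2) (n := fun _ => (H : ℝ)) _
      (fun h _ => ?_)).trans ?_
    · refine (norm_sum_le_of_le (n := fun _ => (1 : ℝ)) _ (fun h' _ => ?_)).trans ?_
      · rw [norm_mul, f_norm, f_norm, one_mul]
      · simp
    · simp [sq]
  rcases Nat.eq_zero_or_pos H with h0 | h0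
  · subst h0; simp
  · have h2 : (0 : ℝ) < (H : ℝ) ^ 2 := by positivity
    rw [inv_mul_le_iff₀ h2, mul_one]
    exact h1

theorem G_tendsto (z : Ci × Ci) (hz : z.1 ≠ z.2) : Tendsto (fun H => G H z) atTop (𝓝 0) := by
  have h := char_avg2 ((fourier 1 z.1 : ℂ) * fourier (-1) z.2) ((fourier (-1) z.1 : ℂ) * fourier 1 z.2)
    (by rw [norm_mul, f_norm, f_norm, one_mul]) (by rw [norm_mul, f_norm, f_norm, one_mul])
  rw [if_neg (fun hh => hz (f_inj _ _ hh.1))] at h
  refine h.congr fun H => ?_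
  unfold G
  congr 1
  refine Finset.sum_congr rfl fun a _ => Finset.sum_congr rfl fun b _ => ?_
  rw [f_sub, f_sub]; ring

theorem Gam_eq (ρ : Measure Ci) (γ : ℕ → ℂ) (h : Rep ρ γ) (n m : ℕ) :
    Gam γ n m = ∫ t, (fourier ((n : ℤ) - m) t : ℂ) ∂ρ := by
  have h1 := congrArg (conj : ℂ → ℂ) (h n m)
  rw [Complex.conj_conj, ← integral_conj] at h1
  rw [h1]
  refine integral_congr_ae (Eventually.of_forall fun t => ?_)
  show conj (fourier ((m : ℤ) - n) t : ℂ) = fourier ((n : ℤ) - m) t
  rw [← fourier_neg, neg_sub]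

theorem diag_null (ρ σ : Measure Ci) [IsFiniteMeasure ρ] [IsFiniteMeasure σ]
    (h : ∀ t, ρ {t} = 0 ∨ σ {t} = 0) : (ρ.prod σ) {z : Ci × Ci | z.1 = z.2} = 0 := by
  have hm : MeasurableSet {z : Ci × Ci | z.1 = z.2} := measurableSet_eq_fun measurable_fst measurable_snd
  rw [Measure.prod_apply hm, lintegral_eq_zero_iff (measurable_measure_prodMk_left hm)]
  have hc : {t : Ci | 0 < σ {a : Ci | id a = t}}.Countable :=
    Measure.countable_meas_level_set_pos (μ := σ) measurable_id
  have hn : ρ {t : Ci | 0 < σ {a : Ci | id a = t}} = 0 := by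
    rw [← Set.biUnion_of_singleton {t : Ci | 0 < σ {a : Ci | id a = t}}, measure_biUnion_null_iff hc]
    intro t ht
    rcases h t with h1 | h1
    · exact h1
    · exact absurd h1 (ne_of_gt ht)
  rw [Filter.EventuallyEq, ae_iff]
  refine measure_mono_null (fun t ht => ?_) hn
  have e : (Prod.mk t ⁻¹' {z : Ci × Ci | z.1 = z.2}) = {a : Ci | id a = t} := by
    ext a; exact eq_comm
  rw [Set.mem_ofPred_eq, e] at ht
  exact pos_iff_ne_zero.2 ht

theorem t_PMS : S_PMS := by
  intro ρ σ hρ hσ γ δ h1 h2 h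
  have key : ∀ H : ℕ, ((H : ℂ) ^ 2)⁻¹ * ∑ h ∈ range H, ∑ h' ∈ range H,
      Gam γ h h' * conj (Gam δ h h') = ∫ z, G H z ∂(ρ.prod σ) := by
    intro H
    unfold G
    rw [integral_const_mul, integral_finsetSum]
    · congr 1
      refine Finset.sum_congr rfl fun a _ => ?_
      rw [integral_finsetSum]
      · refine Finset.sum_congr rfl fun b _ => ?_
        rw [integral_prod_mul (fun t => (fourier ((a : ℤ) - b) t : ℂ)) (fun t => (fourier ((b : ℤ) - a) t : ℂ)),
          Gam_eq ρ γ h1, h2 a b]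
      · intro b _
        have hc : Continuous fun z : Ci × Ci => (fourier ((a : ℤ) - b) z.1 : ℂ) * fourier ((b : ℤ) - a) z.2 := by
          fun_prop
        refine Integrable.of_bound hc.aestronglyMeasurable 1 (Eventually.of_forall fun z => ?_)
        rw [norm_mul, f_norm, f_norm, one_mul]
    · intro a _
      refine integrable_finsetSum _ fun b _ => ?_
      have hc : Continuous fun z : Ci × Ci => (fourier ((a : ℤ) - b) z.1 : ℂ) * fourier ((b : ℤ) - a) z.2 := by
        fun_prop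
      refine Integrable.of_bound hc.aestronglyMeasurable 1 (Eventually.of_forall fun z => ?_)
      rw [norm_mul, f_norm, f_norm, one_mul]
  have hlim : Tendsto (fun H => ∫ z, G H z ∂(ρ.prod σ)) atTop (𝓝 (∫ _z, (0 : ℂ) ∂(ρ.prod σ))) := by
    refine tendsto_integral_of_dominated_convergence (fun _ => (1 : ℝ))
      (fun H => (G_cont H).aestronglyMeasurable) (integrable_const _)
      (fun H => Eventually.of_forall (G_norm H)) ?_
    rw [ae_iff]
    refine measure_mono_null (fun z hz => ?_) (diag_null ρ σ h)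
    by_contra hne
    exact hz (G_tendsto z hne)
  rw [integral_zero] at hlim
  exact hlim.congr fun H => (key H).symm

end Pool.Agent.V5helper53.NR
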