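import Pool.Agent.V5helper53.NR.PMS
import Pool.Agent.V5helper2.NR.Stm3

/-! # Project NR, job QPM: the diagonal of a product measure, quantitative -/

set_option autoImplicit false
open Finset Filter Topology MeasureTheory AddCircle
open scoped ComplexConjugate

namespace Pool.Agent.V5helper53.NR

open Pool.Agent.V5helper2.NR Pool.Agent.Helper498.NCR Pool.Agent.V5helper2.CF

theorem f_inv (t : Ci) : (fourier 1 t : ℂ) * fourier (-1) t = 1 := by
  rw [← fourier_add]; simp

theorem G_tendsto_all (z : Ci × Ci) : Tendsto (fun H => G H z) atTop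
    (𝓝 (Set.indicator {p : Ci × Ci | p.1 = p.2} (fun _ => (1 : ℂ)) z)) := by
  by_cases hz : z.1 = z.2
  · have h := char_avg2 ((fourier 1 z.1 : ℂ) * fourier (-1) z.2) ((fourier (-1) z.1 : ℂ) * fourier 1 z.2)
      (by rw [norm_mul, f_norm, f_norm, one_mul]) (by rw [norm_mul, f_norm, f_norm, one_mul])
    rw [if_pos ⟨by rw [hz, f_inv], by rw [hz, mul_comm, f_inv]⟩] at h
    rw [Set.indicator_of_mem (show z ∈ {p : Ci × Ci | p.1 = p.2} from hz)]
    refine h.congr fun H => ?_
    unfold G
    congr 1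
    refine Finset.sum_congr rfl fun a _ => Finset.sum_congr rfl fun b _ => ?_
    rw [f_sub, f_sub]; ring
  · rw [Set.indicator_of_notMem (show z ∉ {p : Ci × Ci | p.1 = p.2} from hz)]
    exact G_tendsto z hz

theorem key_int (ρ σ : Measure Ci) [IsFiniteMeasure ρ] [IsFiniteMeasure σ] (γ δ : ℕ → ℂ)
    (h1 : Rep ρ γ) (h2 : Rep σ δ) (H : ℕ) : ((H : ℂ) ^ 2)⁻¹ * ∑ h ∈ range H, ∑ h' ∈ range H,
      Gam γ h h' * conj (Gam δ h h') = ∫ z, G H z ∂(ρ.prod σ) := by
  unfold G
  rw [integral_const_mul, integral_finsetSum]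
  · congr 1
    refine Finset.sum_congr rfl fun a _ => ?_
    rw [integral_finsetSum]
    · refine Finset.sum_congr rfl fun b _ => ?_
      rw [integral_prod_mul (fun t => (fourier ((a : ℤ) - b) t : ℂ)) (fun t => (fourier ((b : ℤ) - a) t : ℂ)),
        Gam_eq ρ γ h1, h2 a b]
    · intro b _
      have hc : Continuous fun z : Ci × Ci => (fourier ((a : ℤ) - b) z.1 : ℂ) * fourier ((b : ℤ) - a) z.2 := by
        fun_prop
      refine Integrable.of_bound hc.aestronglyMeasurable 1 (Eventually.of_forall fun z => ?_)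
      rw [norm_mul, f_norm, f_norm, one_mul]
  · intro a _
    refine integrable_finsetSum _ fun b _ => ?_
    have hc : Continuous fun z : Ci × Ci => (fourier ((a : ℤ) - b) z.1 : ℂ) * fourier ((b : ℤ) - a) z.2 := by
      fun_prop
    refine Integrable.of_bound hc.aestronglyMeasurable 1 (Eventually.of_forall fun z => ?_)
    rw [norm_mul, f_norm, f_norm, one_mul]

theorem t_QPM : S_QPM := by
  intro ρ σ hρ hσ γ δ h1 h2
  have hm : MeasurableSet {z : Ci × Ci | z.1 = z.2} := measurableSet_eq_fun measurable_fst measurable_snd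
  have hlim : Tendsto (fun H => ∫ z, G H z ∂(ρ.prod σ)) atTop
      (𝓝 (∫ z, Set.indicator {p : Ci × Ci | p.1 = p.2} (fun _ => (1 : ℂ)) z ∂(ρ.prod σ))) :=
    tendsto_integral_of_dominated_convergence (fun _ => (1 : ℝ))
      (fun H => (G_cont H).aestronglyMeasurable) (integrable_const _)
      (fun H => Eventually.of_forall (G_norm H)) (Eventually.of_forall G_tendsto_all)
  rw [integral_indicator_const _ hm] at hlim
  have e : (ρ.prod σ).real {p : Ci × Ci | p.1 = p.2} • (1 : ℂ) = ((dmass ρ σ : ℝ) : ℂ) := by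
    unfold dmass Measure.real
    rw [Complex.real_smul, mul_one]
  rw [e] at hlim
  exact hlim.congr fun H => (key_int ρ σ γ δ h1 h2 H).symm

end Pool.Agent.V5helper53.NR
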